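import Pool.Agent.Lib_helper74.CKF.CARD

/-!
# The mask stage: linear queries with a one-time pad (MP_675993_lc)

The paper proof is `MSK_helper20.md`, section 1.  `Ω` is the set of the masked cells, `om : Ω → Bool`
the pad.  The queries `true :: v` have the answer (answer of the base oracle `O`) + (a linear
functional of the contents of the cells and of the pad); the content of the cell `w` is
`O (false :: cell w)`.
-/

set_option autoImplicit false

namespace Pool.Agent.MSK

open Pool.Agent.CK

/-- bit strings -/
abbrev Str : Type := List Bool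

/-- a bit as an element of the field with two elements -/
def bz (b : Bool) : ZMod 2 := if b = true then 1 else 0

/-- an element of the field with two elements as a bit -/
def tb (a : ZMod 2) : Bool := decide (a = 1)

/-- A linear scheme over the cells `Ω`: the query `true :: v` reads `cst v`, the contents of the
cells with coefficients `C v` and the pad with coefficients `J v`. -/
structure LS (Ω : Type) where
  cell : Ω → Str
  inj : Function.Injective cell
  J : Str → Ω → ZMod 2
  C : Str → Ω → ZMod 2
  cst : Str → ZMod 2
  len : ∀ v w, C v w ≠ 0 → (cell w).length ≤ v.length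

/-- memory: queries and the values of their linear parts -/
abbrev Mem : Type := List (Str × Bool)

/-- the queries of a memory -/
def keys (ρ : Mem) : Finset Str := (ρ.map Prod.fst).toFinset

/-- the average of `G` over the lists of `d` bits -/
noncomputable def cav : ℕ → (List Bool → ℝ) → ℝ
  | 0, G => G []
  | d + 1, G => (cav d (fun r => G (false :: r)) + cav d (fun r => G (true :: r))) / 2

namespace LS

variable {Ω : Type} [Fintype Ω] [DecidableEq Ω] (Λ : LS Ω)

/-- the linear part of the answer to the query `true :: v` -/
def part (O : Lang) (om : Ω → Bool) (v : Str) : ZMod 2 :=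
  Λ.cst v + ∑ w, Λ.C v w * bz (O (false :: Λ.cell w)) + ∑ w, Λ.J v w * bz (om w)

/-- the oracle with the pad `om` -/
def ans (O : Lang) (om : Ω → Bool) : Lang := fun q => match q with
  | true :: v => xor (O (true :: v)) (tb (Λ.part O om v))
  | q => O q

/-- The pad part of the query `v` is a sum of pad parts of queries in `M`. -/
def Dep (M : Finset Str) (v : Str) : Prop := ∃ I ⊆ M, ∑ u ∈ I, Λ.J u = Λ.J v

open Classical in
/-- such a set of queries -/
noncomputable def rep (M : Finset Str) (v : Str) : Finset Str :=
  if h : Λ.Dep M v then h.choose else ∅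

/-- the cells whose contents determine the linear part of a dependent query -/
noncomputable def cont (M : Finset Str) (v : Str) : Finset Ω :=
  Finset.univ.filter fun w => (Λ.C v + ∑ u ∈ Λ.rep M v, Λ.C u) w ≠ 0

/-- the cells that have to be asked: those that are not in the cache `γ` -/
noncomputable def need (ρ : Mem) (γ : List (Ω × Bool)) (v : Str) : List Ω :=
  ((Λ.cont (keys ρ) v).filter fun w => w ∉ (γ.map Prod.fst).toFinset).toList

/-- the linear part of a dependent query, computed from memory and cache -/
noncomputable def pv (ρ : Mem) (γ : List (Ω × Bool)) (v : Str) : Bool :=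
  tb (Λ.cst v + ∑ u ∈ Λ.rep (keys ρ) v, (Λ.cst u + bz ((ρ.lookup u).getD false)) +
    ∑ w ∈ Λ.cont (keys ρ) v, bz ((γ.lookup w).getD false))

/-- ask the contents of the cells in the list and put them into the cache -/
def askL {β : Type} (f : List (Ω × Bool) → DT β) : List Ω → List (Ω × Bool) → DT β
  | [], γ => f γ
  | w :: l, γ => DT.node (false :: Λ.cell w) (askL f l ((w, false) :: γ))
      (askL f l ((w, true) :: γ))

open Classical in
/-- Simulation of a tree over the oracle with pad by a tree over the base oracle: `ρ` is the memory,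
`γ` the cache, the linear parts of independent queries are taken from the list `r`. -/
noncomputable def simR {β : Type} (d0 : β) : DT β → Mem → List (Ω × Bool) → List Bool → DT β
  | DT.leaf b, _, _, _ => DT.leaf b
  | DT.node [] n0 n1, ρ, γ, r => DT.node [] (simR d0 n0 ρ γ r) (simR d0 n1 ρ γ r)
  | DT.node (false :: w) n0 n1, ρ, γ, r =>
      DT.node (false :: w) (simR d0 n0 ρ γ r) (simR d0 n1 ρ γ r)
  | DT.node (true :: v) n0 n1, ρ, γ, r =>
      if Λ.Dep (keys ρ) v then
        DT.node (true :: v)
          (Λ.askL (fun γ' => if Λ.pv ρ γ' v = true then simR d0 n1 ρ γ' r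
            else simR d0 n0 ρ γ' r) (Λ.need ρ γ v) γ)
          (Λ.askL (fun γ' => if Λ.pv ρ γ' v = true then simR d0 n0 ρ γ' r
            else simR d0 n1 ρ γ' r) (Λ.need ρ γ v) γ)
      else match r with
        | [] => DT.leaf d0
        | p :: r => DT.node (true :: v)
            (if p = true then simR d0 n1 ((v, p) :: ρ) γ r else simR d0 n0 ((v, p) :: ρ) γ r)
            (if p = true then simR d0 n0 ((v, p) :: ρ) γ r else simR d0 n1 ((v, p) :: ρ) γ r)

/-- the pads that are consistent with the memory -/
def Sol (O : Lang) (ρ : Mem) : Finset (Ω → Bool) :=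
  Finset.univ.filter fun om => ∀ q ∈ ρ, Λ.part O om q.1 = bz q.2

/-- the cache is correct -/
def CacheOK (O : Lang) (γ : List (Ω × Bool)) : Prop := ∀ q ∈ γ, O (false :: Λ.cell q.1) = q.2

open Classical in
/-- the cells that occur in a combination without pad of queries in `M` -/
noncomputable def W (M : Finset Str) : Finset Ω :=
  Finset.univ.filter fun w => ∃ I ⊆ M, ∑ u ∈ I, Λ.J u = 0 ∧ (∑ u ∈ I, Λ.C u) w ≠ 0

/-- Combinations without pad of queries of length less than `ℓ` have few cells. -/
def Gen (ℓ bt : ℕ) : Prop := ∀ I : Finset Str, (∀ u ∈ I, u.length < ℓ) → ∑ u ∈ I, Λ.J u = 0 →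
  (Finset.univ.filter fun w => (∑ u ∈ I, Λ.C u) w ≠ 0).card ≤ I.card * bt

/-- number of `x` for which the tree `A x` has the value `v x` -/
def hit {X : Type} [Fintype X] (v : X → Str) (A : X → DT Str) (O : Lang) : ℕ :=
  (Finset.univ.filter fun x => (A x).eval O = v x).card

/-- The simulations of the members of `Fm`: memory of length at most `s`, cache of length at most
`g`, `d` coins, strings shorter than `ℓ`, depth at most `D`. -/
def SimC {X : Type} (ℓ s g d D : ℕ) (Fm : Set (X → DT Str)) : Set (X → DT Str) :=
  {A' | ∃ A ∈ Fm, ∃ ρ : Mem, (ρ.length ≤ s ∧ ∀ q ∈ ρ, q.1.length < ℓ) ∧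
    ∃ γ : List (Ω × Bool), (γ.length ≤ g ∧ ∀ q ∈ γ, (Λ.cell q.1).length < ℓ) ∧
    ∃ r : List Bool, r.length = d ∧ (∀ x, (Λ.simR [] (A x) ρ γ r).depth ≤ D) ∧
    A' = fun x => Λ.simR [] (A x) ρ γ r}

end LS

end Pool.Agent.MSK
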